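import Mathlib
import Pool.Graph.R_seed8.Results.MP_cb142b_pr.SharpProfile

/-!
# The spectral profile and the hitting times from stationarity
-/

set_option autoImplicit false
set_option linter.unusedSectionVars false

open Finset MeasureTheory
open scoped ENNReal

namespace Pool.Agent.H21.SH

open Pool.Agent.Results.MP_cb142b_pr.SharpProfile

noncomputable section

variable {V : Type} [Fintype V] [DecidableEq V] {P : V → V → ℝ} {π : V → ℝ}

/-- `E_π T_y` -/
def mh (P : V → V → ℝ) (π : V → ℝ) (y : V) : ℝ≥0∞ := ∑ x, ENNReal.ofReal (π x) * hit P x y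

/-- `E_π T_y` as a real number -/
def g (P : V → V → ℝ) (π : V → ℝ) (y : V) : ℝ := ∑ x, π x * hr P y x

theorem g_nonneg (hR : Reversible P π) (y : V) : 0 ≤ g P π y :=
  Finset.sum_nonneg fun x _ => mul_nonneg (hR.pos x).le (hr_nonneg hR.nonneg x y)

theorem hit_hr (hR : Reversible P π) (hT : thit P ≠ ⊤) (x y : V) :
    hit P x y = ENNReal.ofReal (hr P y x) := by
  rw [hit_eq hR.nonneg, hr,
    ENNReal.ofReal_tsum_of_nonneg (avoid_nonneg hR.nonneg y · x) (summable_avoid hR.nonneg hT x y)]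

theorem mh_eq (hR : Reversible P π) (hT : thit P ≠ ⊤) (y : V) :
    mh P π y = ENNReal.ofReal (g P π y) := by
  unfold mh g
  rw [ENNReal.ofReal_sum_of_nonneg]
  · exact sum_congr rfl fun x _ => by rw [hit_hr hR hT, ENNReal.ofReal_mul (hR.pos x).le]
  · intro x _
    exact mul_nonneg (hR.pos x).le (hr_nonneg hR.nonneg x y)

theorem mh_le_thit (hR : Reversible P π) (y : V) : mh P π y ≤ thit P := by
  unfold mh
  calc ∑ x, ENNReal.ofReal (π x) * hit P x y
      ≤ ∑ x, ENNReal.ofReal (π x) * thit P :=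
        sum_le_sum fun x _ => mul_le_mul_right (hit_le x y) _
    _ = thit P := by
        rw [← Finset.sum_mul, ← ENNReal.ofReal_sum_of_nonneg fun x _ => (hR.pos x).le, hR.total,
          ENNReal.ofReal_one, one_mul]

/-- if some expected hitting time is infinite then so is some `E_π T_y` -/
theorem exists_mh_top (hR : Reversible P π) (hT : thit P = ⊤) : ∃ y, mh P π y = ⊤ := by
  have hne : Nonempty V := by
    by_contra hcon
    rw [not_nonempty_iff] at hcon
    have := hR.total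
    simp at this
  obtain ⟨x, hx⟩ := exists_eq_ciSup_of_finite (f := fun x => ⨆ y, hit P x y)
  obtain ⟨y, hy⟩ := exists_eq_ciSup_of_finite (f := fun y => hit P x y)
  have h1 : hit P x y = ⊤ := by
    rw [← hT, thit, ← hx]
    exact hy
  refine ⟨y, ?_⟩
  unfold mh
  rw [ENNReal.sum_eq_top]
  refine ⟨x, mem_univ _, ?_⟩
  rw [h1, ENNReal.mul_top]
  simpa using hR.pos x

/-- the deviation of `h` at a point from its mean -/
theorem dev_bound (hR : Reversible P π) (hT : thit P ≠ ⊤) (h : V → ℝ) (y : V) :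
    (h y - ∑ x, π x * h x) ^ 2 ≤ g P π y * energy P π h := by
  have h2 := bil_cs hR (hr P y) h
  rw [bil_hr hR hT, bil_hr hR hT, hr_self, ← energy_eq, sub_zero] at h2
  unfold g
  calc (h y - ∑ x, π x * h x) ^ 2 = (∑ x, π x * h x - h y) ^ 2 := by ring
    _ ≤ _ := h2

theorem variance_eq (hR : Reversible P π) (h : V → ℝ) :
    variance π h = ∑ x, π x * (h x - ∑ z, π z * h z) ^ 2 := by
  set m := ∑ z, π z * h z with hm
  have e : ∀ x, π x * (h x - m) ^ 2 = π x * (h x) ^ 2 - 2 * m * (π x * h x) + m ^ 2 * π x := by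
    intro x; ring
  simp_rw [e]
  rw [sum_add_distrib, sum_sub_distrib, ← mul_sum, ← mul_sum, hR.total, ← hm]
  unfold variance
  rw [← hm]
  ring

/-- Poincare inequality with the target time -/
theorem poincare (hR : Reversible P π) (hT : thit P ≠ ⊤) (h : V → ℝ) :
    variance π h ≤ (∑ y, π y * g P π y) * energy P π h := by
  rw [variance_eq hR, sum_mul]
  refine sum_le_sum fun y _ => ?_
  rw [mul_assoc]
  exact mul_le_mul_of_nonneg_left (dev_bound hR hT h y) (hR.pos y).le

/-- the inequality for functions which vanish off `S` -/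
theorem set_bound (hR : Reversible P π) (hT : thit P ≠ ⊤) (S : Finset V) (h : V → ℝ)
    (hS : ∀ x, x ∉ S → h x = 0) :
    (1 - ∑ x ∈ S, π x) * variance π h ≤ (∑ y ∈ S, π y * g P π y) * energy P π h := by
  set m := ∑ z, π z * h z with hm
  set a := ∑ x ∈ S, π x with ha
  set Q := ∑ x ∈ S, π x * (h x - m) ^ 2 with hQ
  have ha0 : 0 ≤ a := sum_nonneg fun x _ => (hR.pos x).le
  have hcomp : ∑ x ∈ Sᶜ, π x = 1 - a := by
    have := sum_add_sum_compl S π
    rw [hR.total] at this
    linarith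
  have hc0 : 0 ≤ 1 - a := hcomp ▸ sum_nonneg fun x _ => (hR.pos x).le
  have hvar : variance π h = Q + (1 - a) * m ^ 2 := by
    rw [variance_eq hR, ← hm, ← sum_add_sum_compl S, ← hcomp, sum_mul]
    congr 1
    refine sum_congr rfl fun x hx => ?_
    rw [hS x (by simpa using hx)]
    ring
  have hmS : ∑ x ∈ S, π x * (h x - m) = (1 - a) * m := by
    have e1 : ∑ x ∈ S, π x * (h x - m) = ∑ x ∈ S, π x * h x - a * m := by
      rw [ha, sum_mul, ← sum_sub_distrib]
      exact sum_congr rfl fun x _ => by ring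
    have e2 : ∑ x ∈ S, π x * h x = m := by
      rw [hm]
      refine sum_subset (subset_univ S) fun x _ hx => ?_
      rw [hS x hx, mul_zero]
    rw [e1, e2]
    ring
  have hcs : ((1 - a) * m) ^ 2 ≤ a * Q := by
    rw [← hmS]
    have := sum_mul_sq_le_sq_mul_sq S (fun x => Real.sqrt (π x))
      (fun x => Real.sqrt (π x) * (h x - m))
    have e1 : ∀ x, Real.sqrt (π x) * (Real.sqrt (π x) * (h x - m)) = π x * (h x - m) := by
      intro x
      rw [← mul_assoc, Real.mul_self_sqrt (hR.pos x).le]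
    have e2 : ∀ x, (Real.sqrt (π x) * (h x - m)) ^ 2 = π x * (h x - m) ^ 2 := by
      intro x
      rw [mul_pow, Real.sq_sqrt (hR.pos x).le]
    have e3 : ∀ x, (Real.sqrt (π x)) ^ 2 = π x := fun x => Real.sq_sqrt (hR.pos x).le
    simp only [e1, e2, e3] at this
    exact this
  have hQle : Q ≤ (∑ y ∈ S, π y * g P π y) * energy P π h := by
    rw [hQ, sum_mul]
    refine sum_le_sum fun y _ => ?_
    rw [mul_assoc]
    exact mul_le_mul_of_nonneg_left (dev_bound hR hT h y) (hR.pos y).le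
  refine le_trans ?_ hQle
  rw [hvar]
  have : (1 - a) * (Q + (1 - a) * m ^ 2) = (1 - a) * Q + ((1 - a) * m) ^ 2 := by ring
  rw [this]
  linarith

/-- the inverse profile is at most the target time -/
theorem prof_target (hR : Reversible P π) (hT : thit P ≠ ⊤) (δ : ℝ) :
    (profile P π δ)⁻¹ ≤ ENNReal.ofReal (∑ y, π y * g P π y) :=
  inv_profile_le δ _ (sum_nonneg fun y _ => mul_nonneg (hR.pos y).le (g_nonneg hR y))
    fun h hv _ => hv ▸ poincare hR hT h

/-- the inverse profile and the small sets -/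
theorem prof_set (hR : Reversible P π) (hT : thit P ≠ ⊤) (δ c : ℝ) (hδ : δ < 1) (hc : 0 ≤ c)
    (hS : ∀ S : Finset V, ∑ y ∈ S, π y ≤ δ → ∑ y ∈ S, π y * g P π y ≤ c) :
    (profile P π δ)⁻¹ ≤ ENNReal.ofReal (c / (1 - δ)) := by
  have hd : 0 < 1 - δ := by linarith
  refine inv_profile_le δ _ (div_nonneg hc hd.le) fun h hv hs => ?_
  set S : Finset V := univ.filter fun x => h x ≠ 0 with hSd
  have hmass : ∑ y ∈ S, π y = suppMass π h := by
    rw [hSd, sum_filter]
    rfl
  have h1 := set_bound hR hT S h (fun x hx => by simpa [hSd] using hx)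
  have h2 := hS S (hmass ▸ hs)
  rw [hv, mul_one, hmass] at h1
  have h3 := mul_le_mul_of_nonneg_right h2 (energy_nonneg hR h)
  rw [div_mul_eq_mul_div, one_le_div hd]
  linarith

/-- Hoelder -/
theorem hoelder (hR : Reversible P π) (q : ℝ) (hq : 1 < q) (S : Finset V) :
    ∑ y ∈ S, π y * g P π y ≤
      (∑ y ∈ S, π y) ^ (1 - q⁻¹) * (∑ y, π y * g P π y ^ q) ^ q⁻¹ := by
  have h1 := Real.inner_le_weight_mul_Lp_of_nonneg S hq.le π (g P π)
    (fun i => (hR.pos i).le) (fun i => g_nonneg hR i)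
  refine h1.trans ?_
  have h0 : 0 ≤ ∑ y ∈ S, π y := sum_nonneg fun x _ => (hR.pos x).le
  refine mul_le_mul_of_nonneg_left ?_ (Real.rpow_nonneg h0 _)
  refine Real.rpow_le_rpow (sum_nonneg fun y _ => mul_nonneg (hR.pos y).le
    (Real.rpow_nonneg (g_nonneg hR y) _)) ?_ (by positivity)
  exact sum_le_sum_of_subset_of_nonneg (subset_univ S) fun y _ _ =>
    mul_nonneg (hR.pos y).le (Real.rpow_nonneg (g_nonneg hR y) _)

/-- the integrand of the spectral profile time -/
theorem integrand_le (δ c : ℝ) (hδ : 0 < δ) (h : (profile P π δ)⁻¹ ≤ ENNReal.ofReal c) :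
    2 / (ENNReal.ofReal δ * profile P π δ) ≤ ENNReal.ofReal (2 / δ * c) := by
  have e1 : 2 / (ENNReal.ofReal δ * profile P π δ) =
      ENNReal.ofReal (2 / δ) * (profile P π δ)⁻¹ := by
    rw [ENNReal.div_eq_inv_mul, ENNReal.mul_inv (Or.inl (by simpa using hδ))
      (Or.inl ENNReal.ofReal_ne_top), ENNReal.ofReal_div_of_pos hδ, ENNReal.div_eq_inv_mul]
    rw [ENNReal.ofReal_ofNat]
    ring
  rw [e1, ENNReal.ofReal_mul (by positivity)]
  gcongr

theorem int_log (c a b : ℝ) (ha : 0 < a) (hab : a ≤ b) (hc : 0 ≤ c) :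
    ∫⁻ δ in Set.Ioc a b, ENNReal.ofReal (2 / δ * c) = ENNReal.ofReal (2 * Real.log (b / a) * c) := by
  have e : ∀ δ : ℝ, 2 / δ * c = 2 * c * (1 / δ) := fun δ => by ring
  simp_rw [e]
  rw [← ofReal_integral_eq_lintegral_ofReal]
  · congr 1
    rw [integral_const_mul, ← intervalIntegral.integral_of_le hab,
      integral_one_div_of_pos ha (by linarith)]
    ring
  · have : IntegrableOn (fun δ : ℝ => 1 / δ) (Set.Ioc a b) := by
      rw [← intervalIntegrable_iff_integrableOn_Ioc_of_le hab]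
      apply intervalIntegral.intervalIntegrable_one_div
      · intro x hx
        rw [Set.uIcc_of_le hab] at hx
        have := hx.1
        intro h0; rw [h0] at this; linarith
      · exact continuousOn_id
    exact this.const_mul _
  · refine (ae_restrict_iff' measurableSet_Ioc).mpr (Filter.Eventually.of_forall fun t ht => ?_)
    have ht' : (0 : ℝ) < t := lt_trans ha ht.1
    simp only [Pi.zero_apply]
    positivity

theorem int_pow (N s : ℝ) (hs : 0 < s) (hN : 0 ≤ N) :
    ∫⁻ δ in Set.Ioc (0 : ℝ) (1 / 2), ENNReal.ofReal (4 * N * δ ^ (s - 1)) =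
      ENNReal.ofReal (4 * N * ((1 / 2) ^ s / s)) := by
  rw [← ofReal_integral_eq_lintegral_ofReal]
  · congr 1
    rw [integral_const_mul, ← intervalIntegral.integral_of_le (by norm_num),
      integral_rpow (Or.inl (by linarith))]
    rw [sub_add_cancel, Real.zero_rpow hs.ne', sub_zero]
  · have : IntegrableOn (fun δ : ℝ => δ ^ (s - 1)) (Set.Ioc (0 : ℝ) (1 / 2)) := by
      rw [← intervalIntegrable_iff_integrableOn_Ioc_of_le (by norm_num)]
      exact intervalIntegral.intervalIntegrable_rpow' (by linarith)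
    exact this.const_mul _
  · refine (ae_restrict_iff' measurableSet_Ioc).mpr (Filter.Eventually.of_forall fun t ht => ?_)
    have ht' : (0 : ℝ) < t := ht.1
    simp only [Pi.zero_apply]
    positivity

/-- The integrated inequality. -/
theorem tsp_le (hπ : ∀ x, 0 ≤ π x) (s N : ℝ) (hs : 0 < s) (hN : 0 ≤ N)
    (h1 : ∀ δ : ℝ, 0 < δ → δ ≤ 1 / 2 → (profile P π δ)⁻¹ ≤ ENNReal.ofReal (2 * δ ^ s * N))
    (h2 : ∀ δ : ℝ, 1 / 2 < δ → (profile P π δ)⁻¹ ≤ ENNReal.ofReal N) :
    tsp P π ≤ ENNReal.ofReal ((4 * (1 / 2) ^ s / s + 10 * Real.log 2) * N) := by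
  have hmin : 0 ≤ piMin π := Real.iInf_nonneg hπ
  have hu : Set.Ioc (0 : ℝ) (1 / 2) ∪ Set.Ioc (1 / 2) 16 = Set.Ioc 0 16 :=
    Set.Ioc_union_Ioc_eq_Ioc (by norm_num) (by norm_num)
  have s1 : tsp P π ≤ ∫⁻ δ in Set.Ioc (0 : ℝ) 16, 2 / (ENNReal.ofReal δ * profile P π δ) := by
    unfold tsp profileInt
    apply lintegral_mono_set
    exact Set.Ioc_subset_Ioc_left (by linarith)
  have s2 : ∫⁻ δ in Set.Ioc (0 : ℝ) 16, 2 / (ENNReal.ofReal δ * profile P π δ) ≤
      (∫⁻ δ in Set.Ioc (0 : ℝ) (1 / 2), 2 / (ENNReal.ofReal δ * profile P π δ)) +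
      ∫⁻ δ in Set.Ioc (1 / 2 : ℝ) 16, 2 / (ENNReal.ofReal δ * profile P π δ) := by
    rw [← hu]
    exact lintegral_union_le _ _ _
  have s3 : ∫⁻ δ in Set.Ioc (0 : ℝ) (1 / 2), 2 / (ENNReal.ofReal δ * profile P π δ) ≤
      ENNReal.ofReal (4 * N * ((1 / 2) ^ s / s)) := by
    rw [← int_pow N s hs hN]
    refine setLIntegral_mono' measurableSet_Ioc fun δ hδ => ?_
    refine (integrand_le δ _ hδ.1 (h1 δ hδ.1 hδ.2)).trans (le_of_eq ?_)
    congr 1
    rw [Real.rpow_sub_one hδ.1.ne']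
    ring
  have s4 : ∫⁻ δ in Set.Ioc (1 / 2 : ℝ) 16, 2 / (ENNReal.ofReal δ * profile P π δ) ≤
      ENNReal.ofReal (10 * Real.log 2 * N) := by
    have e : 10 * Real.log 2 * N = 2 * Real.log (16 / (1 / 2)) * N := by
      have : (16 : ℝ) / (1 / 2) = 2 ^ 5 := by norm_num
      rw [this, Real.log_pow]
      push_cast
      ring
    rw [e, ← int_log N (1 / 2) 16 (by norm_num) (by norm_num) hN]
    refine setLIntegral_mono' measurableSet_Ioc fun δ hδ => ?_
    exact integrand_le δ _ (lt_trans (by norm_num) hδ.1) (h2 δ hδ.1)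
  have hl : 0 ≤ Real.log 2 := Real.log_nonneg (by norm_num)
  refine (s1.trans (s2.trans (add_le_add s3 s4))).trans (le_of_eq ?_)
  rw [← ENNReal.ofReal_add (by positivity) (by positivity)]
  congr 1
  ring

end

end Pool.Agent.H21.SH
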