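import Mathlib
import Pool.Agent.H21.SH.Bounds

/-!
# The spectral profile time and the `L^q` norms of the hitting times from stationarity
-/

set_option autoImplicit false
set_option linter.unusedSectionVars false

open Finset MeasureTheory
open scoped ENNReal

namespace Pool.Agent.H21.SH

open Pool.Agent.Results.MP_cb142b_pr.SharpProfile

noncomputable section

section General

variable {V : Type} [Fintype V] [DecidableEq V] {P : V → V → ℝ} {π : V → ℝ}

/-- the target time `∑_y π(y) E_π T_y` -/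
def tt (P : V → V → ℝ) (π : V → ℝ) : ℝ≥0∞ := ∑ y, ENNReal.ofReal (π y) * mh P π y

/-- the `L^q(π)` norm of `y ↦ E_π T_y` -/
def mhN (P : V → V → ℝ) (π : V → ℝ) (q : ℝ) : ℝ≥0∞ :=
  (∑ y, ENNReal.ofReal (π y) * mh P π y ^ q) ^ q⁻¹

theorem nonempty_of (hR : Reversible P π) : Nonempty V := by
  by_contra hcon
  rw [not_nonempty_iff] at hcon
  have := hR.total
  simp at this

theorem le_one_of (hR : Reversible P π) (S : Finset V) : ∑ y ∈ S, π y ≤ 1 := by
  rw [← hR.total]
  exact sum_le_sum_of_subset_of_nonneg (subset_univ S) fun y _ _ => (hR.pos y).le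

theorem tt_eq (hR : Reversible P π) (hT : thit P ≠ ⊤) :
    tt P π = ENNReal.ofReal (∑ y, π y * g P π y) := by
  unfold tt
  rw [ENNReal.ofReal_sum_of_nonneg fun y _ => mul_nonneg (hR.pos y).le (g_nonneg hR y)]
  exact sum_congr rfl fun y _ => by rw [mh_eq hR hT, ENNReal.ofReal_mul (hR.pos y).le]

theorem mhN_eq (hR : Reversible P π) (hT : thit P ≠ ⊤) (q : ℝ) (hq : 1 < q) :
    mhN P π q = ENNReal.ofReal ((∑ y, π y * g P π y ^ q) ^ q⁻¹) := by
  have hn : ∀ y ∈ univ, 0 ≤ π y * g P π y ^ q := fun y _ =>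
    mul_nonneg (hR.pos y).le (Real.rpow_nonneg (g_nonneg hR y) _)
  unfold mhN
  rw [← ENNReal.ofReal_rpow_of_nonneg (sum_nonneg hn) (by positivity),
    ENNReal.ofReal_sum_of_nonneg hn]
  congr 1
  refine sum_congr rfl fun y _ => ?_
  rw [mh_eq hR hT, ENNReal.ofReal_mul (hR.pos y).le,
    ENNReal.ofReal_rpow_of_nonneg (g_nonneg hR y) (by linarith)]

theorem mhN_top (hR : Reversible P π) (hT : thit P = ⊤) (q : ℝ) (hq : 1 < q) :
    mhN P π q = ⊤ := by
  obtain ⟨y, hy⟩ := exists_mh_top hR hT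
  unfold mhN
  have : ∑ y, ENNReal.ofReal (π y) * mh P π y ^ q = ⊤ := by
    rw [ENNReal.sum_eq_top]
    refine ⟨y, mem_univ _, ?_⟩
    rw [hy, ENNReal.top_rpow_of_pos (by linarith), ENNReal.mul_top]
    simpa using hR.pos y
  rw [this, ENNReal.top_rpow_of_pos (by positivity)]

theorem tt_top (hR : Reversible P π) (hT : thit P = ⊤) : tt P π = ⊤ := by
  obtain ⟨y, hy⟩ := exists_mh_top hR hT
  unfold tt
  rw [ENNReal.sum_eq_top]
  refine ⟨y, mem_univ _, ?_⟩
  rw [hy, ENNReal.mul_top]
  simpa using hR.pos y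

theorem sup_top (hR : Reversible P π) (hT : thit P = ⊤) : ⨆ y, mh P π y = ⊤ := by
  obtain ⟨y, hy⟩ := exists_mh_top hR hT
  exact eq_top_iff.2 (hy ▸ le_iSup (fun y => mh P π y) y)

/-- the inverse profile and the sets of measure at most `δ` -/
theorem prof_sup (hR : Reversible P π) (hT : thit P ≠ ⊤) (δ : ℝ) (hδ : δ < 1) :
    (profile P π δ)⁻¹ ≤ ENNReal.ofReal (1 / (1 - δ)) *
      ⨆ (S : Finset V) (_ : ∑ y ∈ S, π y ≤ δ), ∑ y ∈ S, ENNReal.ofReal (π y) * mh P π y := by
  have hd : 0 < 1 - δ := by linarith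
  set A := ⨆ (S : Finset V) (_ : ∑ y ∈ S, π y ≤ δ), ∑ y ∈ S, ENNReal.ofReal (π y) * mh P π y
    with hA
  have hset : ∀ S : Finset V, ∑ y ∈ S, ENNReal.ofReal (π y) * mh P π y =
      ENNReal.ofReal (∑ y ∈ S, π y * g P π y) := by
    intro S
    rw [ENNReal.ofReal_sum_of_nonneg fun y _ => mul_nonneg (hR.pos y).le (g_nonneg hR y)]
    exact sum_congr rfl fun y _ => by rw [mh_eq hR hT, ENNReal.ofReal_mul (hR.pos y).le]
  have hAt : A ≠ ⊤ := by
    refine ne_top_of_le_ne_top (b := ENNReal.ofReal (∑ y, π y * g P π y))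
      ENNReal.ofReal_ne_top ?_
    refine iSup₂_le fun S _ => ?_
    rw [hset S]
    exact ENNReal.ofReal_le_ofReal (sum_le_sum_of_subset_of_nonneg (subset_univ S) fun y _ _ =>
      mul_nonneg (hR.pos y).le (g_nonneg hR y))
  have h1 := prof_set hR hT δ A.toReal hδ ENNReal.toReal_nonneg (fun S hS => by
    have h2 : ENNReal.ofReal (∑ y ∈ S, π y * g P π y) ≤ A := by
      rw [← hset S]
      exact le_iSup₂ (f := fun (S : Finset V) (_ : ∑ y ∈ S, π y ≤ δ) =>
        ∑ y ∈ S, ENNReal.ofReal (π y) * mh P π y) S hS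
    exact (ENNReal.ofReal_le_iff_le_toReal hAt).1 h2)
  refine h1.trans (le_of_eq ?_)
  rw [div_eq_mul_one_div, mul_comm, ENNReal.ofReal_mul (by positivity), ENNReal.ofReal_toReal hAt]

theorem prof_tt (hR : Reversible P π) (δ : ℝ) : (profile P π δ)⁻¹ ≤ tt P π := by
  by_cases hT : thit P = ⊤
  · rw [tt_top hR hT]
    exact le_top
  · rw [tt_eq hR hT]
    exact prof_target hR hT δ

/-- the bound with the `L^q` norm -/
theorem tsp_norm (hR : Reversible P π) (q : ℝ) (hq : 1 < q) :
    tsp P π ≤ ENNReal.ofReal (4 * (1 / 2) ^ (1 - q⁻¹) / (1 - q⁻¹) + 10 * Real.log 2) *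
      mhN P π q := by
  have hqi : q⁻¹ < 1 := inv_lt_one_of_one_lt₀ hq
  have hs : 0 < 1 - q⁻¹ := by linarith
  have hl : 0 < Real.log 2 := Real.log_pos (by norm_num)
  have hC : 0 < 4 * (1 / 2 : ℝ) ^ (1 - q⁻¹) / (1 - q⁻¹) + 10 * Real.log 2 := by positivity
  by_cases hT : thit P = ⊤
  · rw [mhN_top hR hT q hq, ENNReal.mul_top (by simpa using hC)]
    exact le_top
  set N : ℝ := (∑ y, π y * g P π y ^ q) ^ q⁻¹ with hN
  have hN0 : 0 ≤ N := Real.rpow_nonneg (sum_nonneg fun y _ =>
    mul_nonneg (hR.pos y).le (Real.rpow_nonneg (g_nonneg hR y) _)) _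
  rw [mhN_eq hR hT q hq, ← ENNReal.ofReal_mul hC.le]
  refine tsp_le (fun x => (hR.pos x).le) (1 - q⁻¹) N hs hN0 ?_ ?_
  · intro δ hδ0 hδ
    refine (prof_set hR hT δ (δ ^ (1 - q⁻¹) * N) (by linarith) (by positivity)
      fun S hS => ?_).trans ?_
    · refine (hoelder hR q hq S).trans (mul_le_mul_of_nonneg_right ?_ hN0)
      exact Real.rpow_le_rpow (sum_nonneg fun x _ => (hR.pos x).le) hS hs.le
    · refine ENNReal.ofReal_le_ofReal ?_
      have h0 : 0 ≤ δ ^ (1 - q⁻¹) * N := by positivity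
      rw [div_le_iff₀ (by linarith)]
      nlinarith
  · intro δ _
    refine (prof_target hR hT δ).trans (ENNReal.ofReal_le_ofReal ?_)
    have := hoelder hR q hq univ
    rwa [hR.total, Real.one_rpow, one_mul] at this

theorem int_sub (N : ℝ) (hN : 0 ≤ N) :
    ∫⁻ δ in Set.Ioc (0 : ℝ) (1 / 2), ENNReal.ofReal (2 / (1 - δ) * N) =
      ENNReal.ofReal (2 * Real.log 2 * N) := by
  have e : ∀ δ : ℝ, 2 / (1 - δ) * N = 2 * N * (1 / (1 - δ)) := fun δ => by ring
  simp_rw [e]
  have hint : IntervalIntegrable (fun δ : ℝ => 1 / (1 - δ)) volume 0 (1 / 2) := by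
    apply intervalIntegral.intervalIntegrable_one_div
    · intro x hx
      rw [Set.uIcc_of_le (by norm_num)] at hx
      have := hx.2
      intro h0
      linarith
    · fun_prop
  rw [← ofReal_integral_eq_lintegral_ofReal]
  · congr 1
    rw [integral_const_mul, ← intervalIntegral.integral_of_le (by norm_num),
      intervalIntegral.integral_comp_sub_left (fun x : ℝ => 1 / x) 1,
      integral_one_div_of_pos (by norm_num) (by norm_num)]
    norm_num
    ring
  · have : IntegrableOn (fun δ : ℝ => 1 / (1 - δ)) (Set.Ioc (0 : ℝ) (1 / 2)) := by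
      rwa [← intervalIntegrable_iff_integrableOn_Ioc_of_le (by norm_num)]
    exact this.const_mul _
  · refine (ae_restrict_iff' measurableSet_Ioc).mpr (Filter.Eventually.of_forall fun t ht => ?_)
    have ht' : t ≤ 1 / 2 := ht.2
    have : 0 < 1 - t := by linarith
    simp only [Pi.zero_apply]
    positivity

/-- the greatest value of `∑_{y ∈ S} π(y) E_π T_y` over the sets `S` with `π(S) ≤ δ` -/
def sm (P : V → V → ℝ) (π : V → ℝ) (δ : ℝ) : ℝ≥0∞ :=
  ⨆ (S : Finset V) (_ : ∑ y ∈ S, π y ≤ δ), ∑ y ∈ S, ENNReal.ofReal (π y) * mh P π y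

/-- splitting of the spectral profile time at `1 / 2` -/
theorem tsp_split (hπ : ∀ x, 0 ≤ π x) :
    tsp P π ≤ (∫⁻ δ in Set.Ioc (0 : ℝ) (1 / 2), 2 / (ENNReal.ofReal δ * profile P π δ)) +
      ∫⁻ δ in Set.Ioc (1 / 2 : ℝ) 16, 2 / (ENNReal.ofReal δ * profile P π δ) := by
  have hmin : 0 ≤ piMin π := Real.iInf_nonneg hπ
  have hu : Set.Ioc (0 : ℝ) (1 / 2) ∪ Set.Ioc (1 / 2) 16 = Set.Ioc 0 16 :=
    Set.Ioc_union_Ioc_eq_Ioc (by norm_num) (by norm_num)
  have s1 : tsp P π ≤ ∫⁻ δ in Set.Ioc (0 : ℝ) 16, 2 / (ENNReal.ofReal δ * profile P π δ) := by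
    unfold tsp profileInt
    apply lintegral_mono_set
    exact Set.Ioc_subset_Ioc_left (by linarith)
  refine s1.trans ?_
  rw [← hu]
  exact lintegral_union_le _ _ _

theorem upper_part (hR : Reversible P π) (hT : thit P ≠ ⊤) :
    ∫⁻ δ in Set.Ioc (1 / 2 : ℝ) 16, 2 / (ENNReal.ofReal δ * profile P π δ) ≤
      ENNReal.ofReal (10 * Real.log 2) * tt P π := by
  have hl : 0 ≤ Real.log 2 := Real.log_nonneg (by norm_num)
  rw [tt_eq hR hT, ← ENNReal.ofReal_mul (by positivity)]
  set N := ∑ y, π y * g P π y with hN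
  have hN0 : 0 ≤ N := sum_nonneg fun y _ => mul_nonneg (hR.pos y).le (g_nonneg hR y)
  have e : 10 * Real.log 2 * N = 2 * Real.log (16 / (1 / 2)) * N := by
    have : (16 : ℝ) / (1 / 2) = 2 ^ 5 := by norm_num
    rw [this, Real.log_pow]
    push_cast
    ring
  rw [e, ← int_log N (1 / 2) 16 (by norm_num) (by norm_num) hN0]
  refine setLIntegral_mono' measurableSet_Ioc fun δ hδ => ?_
  exact integrand_le δ _ (lt_trans (by norm_num) hδ.1) (prof_target hR hT δ)

/-- the bound with all small sets -/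
theorem tsp_master (hR : Reversible P π) :
    tsp P π ≤ (∫⁻ δ in Set.Ioc (0 : ℝ) (1 / 2), ENNReal.ofReal (2 / (δ * (1 - δ))) * sm P π δ) +
      ENNReal.ofReal (10 * Real.log 2) * tt P π := by
  have hl : 0 < Real.log 2 := Real.log_pos (by norm_num)
  by_cases hT : thit P = ⊤
  · rw [tt_top hR hT, ENNReal.mul_top (by simp; positivity)]
    simp
  refine (tsp_split fun x => (hR.pos x).le).trans (add_le_add ?_ (upper_part hR hT))
  refine setLIntegral_mono' measurableSet_Ioc fun δ hδ => ?_
  have hδ0 : 0 < δ := hδ.1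
  have hδ1 : δ ≤ 1 / 2 := hδ.2
  have h1 : 0 < 1 - δ := by linarith
  have e1 : 2 / (ENNReal.ofReal δ * profile P π δ) =
      ENNReal.ofReal (2 / δ) * (profile P π δ)⁻¹ := by
    rw [ENNReal.div_eq_inv_mul, ENNReal.mul_inv (Or.inl (by simpa using hδ0))
      (Or.inl ENNReal.ofReal_ne_top), ENNReal.ofReal_div_of_pos hδ0, ENNReal.div_eq_inv_mul]
    rw [ENNReal.ofReal_ofNat]
    ring
  rw [e1]
  refine (mul_le_mul_right (prof_sup hR hT δ (by linarith)) _).trans (le_of_eq ?_)
  rw [← mul_assoc, ← ENNReal.ofReal_mul (by positivity)]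
  unfold sm
  congr 2
  field_simp

/-- the bound with the maximum -/
theorem tsp_sup (hR : Reversible P π) :
    tsp P π ≤ ENNReal.ofReal (12 * Real.log 2) * ⨆ y, mh P π y := by
  have hl : 0 < Real.log 2 := Real.log_pos (by norm_num)
  by_cases hT : thit P = ⊤
  · rw [sup_top hR hT, ENNReal.mul_top (by simp; positivity)]
    exact le_top
  have hne := nonempty_of hR
  obtain ⟨y₀, hy₀⟩ := Finite.exists_max (g P π)
  set N : ℝ := g P π y₀ with hN
  have hN0 : 0 ≤ N := g_nonneg hR y₀
  have hsup : ENNReal.ofReal N ≤ ⨆ y, mh P π y := by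
    rw [hN, ← mh_eq hR hT]
    exact le_iSup (fun y => mh P π y) y₀
  have hS : ∀ S : Finset V, ∑ y ∈ S, π y * g P π y ≤ (∑ y ∈ S, π y) * N := by
    intro S
    rw [sum_mul]
    exact sum_le_sum fun y _ => mul_le_mul_of_nonneg_left (hy₀ y) (hR.pos y).le
  have h1 : ∫⁻ δ in Set.Ioc (0 : ℝ) (1 / 2), 2 / (ENNReal.ofReal δ * profile P π δ) ≤
      ENNReal.ofReal (2 * Real.log 2 * N) := by
    rw [← int_sub N hN0]
    refine setLIntegral_mono' measurableSet_Ioc fun δ hδ => ?_
    have hδ0 : 0 < δ := hδ.1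
    have hδ1 : δ ≤ 1 / 2 := hδ.2
    have hd : 0 < 1 - δ := by linarith
    have h2 := prof_set hR hT δ (δ * N) (by linarith) (by positivity)
        fun S h => (hS S).trans (mul_le_mul_of_nonneg_right h hN0)
    refine (integrand_le δ _ hδ0 h2).trans (le_of_eq ?_)
    congr 1
    field_simp
  have h2 : tt P π ≤ ENNReal.ofReal N := by
    rw [tt_eq hR hT]
    refine ENNReal.ofReal_le_ofReal ?_
    have := hS univ
    rwa [hR.total, one_mul] at this
  refine (tsp_split fun x => (hR.pos x).le).trans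
    ((add_le_add h1 (upper_part hR hT)).trans ?_)
  refine le_trans (add_le_add_right (mul_le_mul_right h2 _) _) ?_
  rw [← ENNReal.ofReal_mul (by positivity), ← ENNReal.ofReal_add (by positivity) (by positivity)]
  refine le_trans (le_of_eq ?_) (mul_le_mul_right hsup _)
  rw [← ENNReal.ofReal_mul (by positivity)]
  congr 1
  ring

theorem piMin_pos (hR : Reversible P π) : 0 < piMin π ∧ piMin π ≤ 1 := by
  have hne := nonempty_of hR
  obtain ⟨y, hy⟩ := exists_eq_ciInf_of_finite (f := π)
  unfold piMin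
  rw [← hy]
  refine ⟨hR.pos y, ?_⟩
  have := le_one_of hR {y}
  simpa using this

/-- the bound with the target time and the logarithm -/
theorem tsp_target (hR : Reversible P π) :
    tsp P π ≤ ENNReal.ofReal (2 * Real.log (4 / piMin π)) * tt P π := by
  obtain ⟨hp0, hp1⟩ := piMin_pos hR
  have h4 : 1 < 4 / piMin π := by rw [lt_div_iff₀ hp0]; linarith
  have hl : 0 < Real.log (4 / piMin π) := Real.log_pos h4
  by_cases hT : thit P = ⊤
  · rw [tt_top hR hT, ENNReal.mul_top (by simpa using hl)]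
    exact le_top
  rw [tt_eq hR hT, ← ENNReal.ofReal_mul (by positivity)]
  set T := ∑ y, π y * g P π y with hTd
  have hT0 : 0 ≤ T := sum_nonneg fun y _ => mul_nonneg (hR.pos y).le (g_nonneg hR y)
  have e : 4 / piMin π = 16 / (4 * piMin π) := by
    field_simp
    norm_num
  rw [e, ← int_log T (4 * piMin π) 16 (by linarith) (by linarith) hT0]
  unfold tsp profileInt
  refine setLIntegral_mono' measurableSet_Ioc fun δ hδ => ?_
  have hδ0 : 0 < δ := lt_trans (by linarith) hδ.1
  exact integrand_le δ _ hδ0 (prof_target hR hT δ)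

theorem hit_perm (σ : Equiv.Perm V) (hσ : ∀ x z, P (σ x) (σ z) = P x z) (x y : V) :
    hit P (σ x) (σ y) = hit P x y := by
  have h : ∀ (n : ℕ) (x : V), avoid P (σ y) n (σ x) = avoid P y n x := by
    intro n
    induction n with
    | zero => intro x; simp [avoid]
    | succ n ih =>
      intro x
      rw [avoid, avoid]
      by_cases hxy : x = y
      · simp [hxy]
      · rw [if_neg (fun h => hxy (σ.injective h)), if_neg hxy]
        rw [← Equiv.sum_comp σ]
        exact sum_congr rfl fun z _ => by rw [hσ, ih]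
  unfold hit surv
  simp_rw [h]

theorem mh_perm (σ : Equiv.Perm V) (hσ : ∀ x z, P (σ x) (σ z) = P x z) (hπ : ∀ x, π (σ x) = π x)
    (y : V) : mh P π (σ y) = mh P π y := by
  unfold mh
  rw [← Equiv.sum_comp σ]
  exact sum_congr rfl fun x _ => by rw [hπ, hit_perm σ hσ]

end General

section Graph

variable {V : Type} [Fintype V] [DecidableEq V] (G : SimpleGraph V) [DecidableRel G.Adj]

theorem stat_sub [Subsingleton V] (x : V) : stat G x = 0 := by
  have : G.degree x = 0 := by
    rw [← G.card_neighborFinset_eq_degree, Finset.card_eq_zero]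
    ext y
    simp only [SimpleGraph.mem_neighborFinset, Finset.notMem_empty, iff_false]
    intro hxy
    exact hxy.ne (Subsingleton.elim x y)
  rw [stat, this]; simp

theorem tsp_sub [Subsingleton V] : tsp (srw G) (stat G) = 0 := by
  have hp : ∀ δ, profile (srw G) (stat G) δ = ⊤ := by
    intro δ
    unfold profile
    rw [iInf_eq_top]
    rintro ⟨h, hv, -⟩
    exfalso
    simp [variance, stat_sub] at hv
  have hm : 0 ≤ piMin (stat G) := Real.iInf_nonneg fun x => (stat_sub G x).ge
  unfold tsp profileInt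
  rw [← nonpos_iff_eq_zero]
  have : ∫⁻ δ in Set.Ioc (4 * piMin (stat G)) 16, 2 / (ENNReal.ofReal δ *
      profile (srw G) (stat G) δ) ≤ ∫⁻ _ in Set.Ioc (4 * piMin (stat G)) (16 : ℝ), (0 : ℝ≥0∞) := by
    refine setLIntegral_mono' measurableSet_Ioc fun δ hδ => ?_
    have hδ0 : 0 < δ := lt_of_le_of_lt (by linarith) hδ.1
    rw [hp, ENNReal.mul_top (by simpa using hδ0), ENNReal.div_top]
  simpa using this

theorem graph_norm (hG : G.Connected) (q : ℝ) (hq : 1 < q) :
    tsp (srw G) (stat G) ≤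
      ENNReal.ofReal (4 * (1 / 2) ^ (1 - q⁻¹) / (1 - q⁻¹) + 10 * Real.log 2) *
        mhN (srw G) (stat G) q := by
  rcases subsingleton_or_nontrivial V with hV | hV
  · rw [tsp_sub]; exact zero_le
  · exact tsp_norm (srw_reversible G hG) q hq

theorem graph_sup (hG : G.Connected) :
    tsp (srw G) (stat G) ≤
      ENNReal.ofReal (12 * Real.log 2) * ⨆ y, mh (srw G) (stat G) y := by
  rcases subsingleton_or_nontrivial V with hV | hV
  · rw [tsp_sub]; exact zero_le
  · exact tsp_sup (srw_reversible G hG)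

theorem graph_mh_le (hG : G.Connected) (y : V) : mh (srw G) (stat G) y ≤ thit (srw G) := by
  rcases subsingleton_or_nontrivial V with hV | hV
  · unfold mh
    simp [stat_sub]
  · exact mh_le_thit (srw_reversible G hG) y

/-- vertex-transitive graphs -/
theorem graph_transitive (hG : G.Connected) (ht : ∀ x y : V, ∃ φ : G ≃g G, φ x = y) (y : V) :
    tsp (srw G) (stat G) ≤ ENNReal.ofReal (12 * Real.log 2) * mh (srw G) (stat G) y := by
  refine (graph_sup G hG).trans (mul_le_mul_right (iSup_le fun z => ?_) _)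
  obtain ⟨φ, rfl⟩ := ht y z
  have hdeg : ∀ x, G.degree (φ x) = G.degree x := fun x => φ.degree_eq x
  refine le_of_eq (mh_perm φ.toEquiv (fun x z => ?_) (fun x => ?_) y)
  · change srw G (φ x) (φ z) = srw G x z
    unfold srw
    rw [hdeg]
    simp only [φ.map_adj_iff]
  · change stat G (φ x) = stat G x
    unfold stat
    rw [hdeg]

/-- Cayley graphs -/
theorem graph_cayley {H : Type} [Group H] [Fintype H] [DecidableEq H] (G : SimpleGraph H)
    [DecidableRel G.Adj] (hG : G.Connected) (hc : ∀ a b c : H, G.Adj (c * a) (c * b) ↔ G.Adj a b)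
    (y : H) :
    tsp (srw G) (stat G) ≤ ENNReal.ofReal (12 * Real.log 2) * mh (srw G) (stat G) y := by
  refine graph_transitive G hG (fun a b => ?_) y
  refine ⟨⟨Equiv.mulLeft (b * a⁻¹), ?_⟩, ?_⟩
  · intro u v
    simp only [Equiv.coe_mulLeft]
    exact hc u v (b * a⁻¹)
  · show b * a⁻¹ * a = b
    group

end Graph

section TwoState

theorem two_state (a : ℝ) (h0 : 0 < a) (h1 : a ≤ 1 / 2) :
    Reversible (fun _ z => law a z) (law a) ∧ thit (fun _ z => law a z) ≠ ⊤ ∧
    piMin (law a) = a ∧ tt (fun _ z => law a z) (law a) = 1 ∧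
    tsp (fun _ z => law a z) (law a) = ENNReal.ofReal (2 * Real.log (4 / a)) := by
  have hR := law_reversible a h0 (by linarith)
  have hT := ne_top_of_le_ne_top ENNReal.ofReal_ne_top (thit_iid a h0 h1)
  have hmin : piMin (law a) = a := by
    unfold piMin
    apply le_antisymm
    · exact ciInf_le_of_le (Set.finite_range _).bddBelow true (by simp [law])
    · refine le_ciInf fun x => ?_
      cases x
      · simp [law]; linarith
      · simp [law]
  have hhr : ∀ x y, hr (fun _ z => law a z) y x = if x = y then 0 else 1 / law a y := by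
    intro x y
    have hy := hR.pos y
    unfold hr
    simp_rw [avoid_iid]
    by_cases hxy : x = y
    · simp [hxy]
    · simp only [if_neg hxy]
      have hy1 : 0 ≤ 1 - law a y := by
        cases y
        · simp [law]; exact h0.le
        · simp [law]; linarith
      rw [tsum_geometric_of_lt_one hy1 (by linarith)]
      rw [sub_sub_cancel, one_div]
  have htt : ∑ y, law a y * g (fun _ z => law a z) (law a) y = 1 := by
    have hne : (1 : ℝ) - a ≠ 0 := by linarith
    simp only [g, hhr, Fintype.sum_bool]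
    simp [law]
    field_simp
    ring
  have htt' : tt (fun _ z => law a z) (law a) = 1 := by
    rw [tt_eq hR hT, htt, ENNReal.ofReal_one]
  refine ⟨hR, hT, hmin, htt', ?_⟩
  apply le_antisymm
  · have := tsp_target hR
    rwa [hmin, htt', mul_one] at this
  · -- lower bound
    have hvar : variance (law a) (fun x => if x then 1 else 0) = a * (1 - a) := by
      simp [variance, law]; ring
    have hen : energy (fun _ z => law a z) (law a) (fun x => if x then 1 else 0) = a * (1 - a) := by
      simp [energy, law]; ring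
    have hvpos : 0 < a * (1 - a) := mul_pos h0 (by linarith)
    have hprof : ∀ δ, a ≤ δ → profile (fun _ z => law a z) (law a) δ ≤ 1 := by
      intro δ hδ
      have hsupp : suppMass (law a) (fun x => if x then 1 else 0) ≤ δ := by
        simpa [suppMass, law] using hδ
      have hlb := profile_le_of (P := fun _ z => law a z) (π := law a) δ
        (fun x => if x then 1 else 0) (by rw [hvar]; exact hvpos) hsupp
      rwa [hvar, hen, div_self hvpos.ne', ENNReal.ofReal_one] at hlb
    have e : 4 / a = 16 / (4 * a) := by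
      field_simp
      norm_num
    have h2 := int_log 1 (4 * a) 16 (by linarith) (by linarith) zero_le_one
    rw [mul_one, ← e] at h2
    rw [← h2]
    unfold tsp profileInt
    rw [hmin]
    refine setLIntegral_mono' measurableSet_Ioc fun δ hδ => ?_
    have hδ0 : 0 < δ := lt_trans (by linarith) hδ.1
    rw [mul_one, ENNReal.ofReal_div_of_pos hδ0, ENNReal.ofReal_ofNat]
    refine ENNReal.div_le_div_left ?_ _
    calc ENNReal.ofReal δ * profile (fun _ z => law a z) (law a) δ
        ≤ ENNReal.ofReal δ * 1 := mul_le_mul_right (hprof δ (by linarith [hδ.1])) _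
      _ = ENNReal.ofReal δ := mul_one _

theorem no_constant : ¬ ∃ C : ℝ, ∀ (V : Type) [Fintype V] [DecidableEq V] (P : V → V → ℝ)
    (π : V → ℝ), Reversible P π → tsp P π ≤ ENNReal.ofReal C * tt P π := by
  rintro ⟨C, hC⟩
  set a : ℝ := min (1 / 2) (4 * Real.exp (-(|C| + 1))) with ha
  have h0 : 0 < a := lt_min (by norm_num) (by positivity)
  have h1 : a ≤ 1 / 2 := min_le_left _ _
  have h2 : a ≤ 4 * Real.exp (-(|C| + 1)) := min_le_right _ _
  obtain ⟨hR, -, -, htt, htsp⟩ := two_state a h0 h1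
  have h3 := hC Bool (fun _ z => law a z) (law a) hR
  rw [htt, htsp, mul_one] at h3
  have h4 : |C| + 1 ≤ Real.log (4 / a) := by
    rw [Real.le_log_iff_exp_le (by positivity), le_div_iff₀ h0]
    have := mul_le_mul_of_nonneg_left h2 (Real.exp_pos (|C| + 1)).le
    have e : Real.exp (|C| + 1) * (4 * Real.exp (-(|C| + 1))) = 4 := by
      rw [show Real.exp (|C| + 1) * (4 * Real.exp (-(|C| + 1))) =
        4 * (Real.exp (|C| + 1) * Real.exp (-(|C| + 1))) by ring, ← Real.exp_add]
      simp
    linarith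
  have h5 : ENNReal.ofReal C < ENNReal.ofReal (2 * Real.log (4 / a)) := by
    rw [ENNReal.ofReal_lt_ofReal_iff (by
      have := abs_nonneg C
      linarith)]
    have := le_abs_self C
    have := abs_nonneg C
    linarith
  exact absurd h3 (not_le.2 h5)

/-- the constant for `q` has to be at least `1 / (2 (q - 1))` -/
theorem norm_order (q : ℝ) (hq : 1 < q) (hq2 : q ≤ 2) : ∃ a : ℝ, 0 < a ∧ a ≤ 1 / 2 ∧
    1 ≤ mhN (fun _ z => law a z) (law a) q ∧
    ENNReal.ofReal (1 / (2 * (q - 1))) * mhN (fun _ z => law a z) (law a) q ≤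
      tsp (fun _ z => law a z) (law a) := by
  set a : ℝ := Real.exp (-(1 / (q - 1))) with ha
  have hq1 : 0 < q - 1 := by linarith
  have h0 : 0 < a := Real.exp_pos _
  have h1 : a ≤ 1 / 2 := by
    have e1 : (1 : ℝ) ≤ 1 / (q - 1) := by rw [le_div_iff₀ hq1]; linarith
    have e2 : a ≤ Real.exp (-1) := Real.exp_le_exp.2 (by linarith)
    have e3 : Real.exp (-1) ≤ 1 / 2 := by
      rw [Real.exp_neg, inv_eq_one_div]
      exact one_div_le_one_div_of_le (by norm_num) (by linarith [Real.exp_one_gt_d9])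
    linarith
  refine ⟨a, h0, h1, ?_⟩
  obtain ⟨hR, hT, hm, htt, hts⟩ := two_state a h0 h1
  have ha1 : 0 < 1 - a := by linarith
  have hhr : ∀ x y, hr (fun _ z => law a z) y x = if x = y then 0 else 1 / law a y := by
    intro x y
    have hy := hR.pos y
    unfold hr
    simp_rw [avoid_iid]
    by_cases hxy : x = y
    · simp [hxy]
    · simp only [if_neg hxy]
      have hy1 : 0 ≤ 1 - law a y := by
        cases y
        · simp [law]; exact h0.le
        · simp [law]; linarith
      rw [tsum_geometric_of_lt_one hy1 (by linarith)]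
      rw [sub_sub_cancel, one_div]
  have g1 : g (fun _ z => law a z) (law a) true = (1 - a) / a := by
    simp only [g, hhr, Fintype.sum_bool]
    simp [law]
    ring
  have g2 : g (fun _ z => law a z) (law a) false = a / (1 - a) := by
    simp only [g, hhr, Fintype.sum_bool]
    simp [law]
    ring
  have hlog : Real.log (4 / a) = Real.log 4 + 1 / (q - 1) := by
    rw [Real.log_div (by norm_num) h0.ne', ha, Real.log_exp]
    ring
  have hsum : ∑ y, law a y * g (fun _ z => law a z) (law a) y ^ q ≤ 4 := by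
    rw [Fintype.sum_bool, g1, g2]
    have l1 : law a true = a := by simp [law]
    have l2 : law a false = 1 - a := by simp [law]
    rw [l1, l2]
    have i1 : a * ((1 - a) / a) ^ q ≤ Real.exp 1 := by
      have j1 : ((1 - a) / a) ^ q ≤ (a⁻¹) ^ q := by
        refine Real.rpow_le_rpow (by positivity) ?_ (by linarith)
        rw [inv_eq_one_div]
        exact div_le_div_of_nonneg_right (by linarith) h0.le
      have j2 : a * (a⁻¹) ^ q = Real.exp 1 := by
        rw [Real.inv_rpow h0.le, ← Real.rpow_neg h0.le]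
        nth_rewrite 1 [← Real.rpow_one a]
        rw [← Real.rpow_add h0, ha, ← Real.exp_mul]
        congr 1
        field_simp
        ring
      calc a * ((1 - a) / a) ^ q ≤ a * (a⁻¹) ^ q := mul_le_mul_of_nonneg_left j1 h0.le
        _ = _ := j2
    have i2 : (1 - a) * (a / (1 - a)) ^ q ≤ 1 := by
      have j1 : (a / (1 - a)) ^ q ≤ 1 := by
        refine Real.rpow_le_one (by positivity) ?_ (by linarith)
        rw [div_le_one ha1]
        linarith
      have j2 : 0 ≤ (a / (1 - a)) ^ q := Real.rpow_nonneg (by positivity) _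
      nlinarith
    have := Real.exp_one_lt_d9
    linarith
  have hs0 : 0 ≤ ∑ y, law a y * g (fun _ z => law a z) (law a) y ^ q :=
    sum_nonneg fun y _ => mul_nonneg (hR.pos y).le (Real.rpow_nonneg (g_nonneg hR y) _)
  have hN : (∑ y, law a y * g (fun _ z => law a z) (law a) y ^ q) ^ q⁻¹ ≤ 4 := by
    have hqi : q⁻¹ ≤ 1 := inv_le_one_of_one_le₀ hq.le
    calc (∑ y, law a y * g (fun _ z => law a z) (law a) y ^ q) ^ q⁻¹ ≤ (4 : ℝ) ^ q⁻¹ :=
          Real.rpow_le_rpow hs0 hsum (by positivity)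
      _ ≤ (4 : ℝ) ^ (1 : ℝ) := Real.rpow_le_rpow_of_exponent_le (by norm_num) hqi
      _ = 4 := Real.rpow_one 4
  constructor
  · have h3 := hoelder hR q hq univ
    rw [hR.total, Real.one_rpow, one_mul] at h3
    rw [← htt, tt_eq hR hT, mhN_eq hR hT q hq]
    exact ENNReal.ofReal_le_ofReal h3
  · rw [mhN_eq hR hT q hq, hts, hlog, ← ENNReal.ofReal_mul (by positivity)]
    refine ENNReal.ofReal_le_ofReal ?_
    have h4 : 0 ≤ Real.log 4 := Real.log_nonneg (by norm_num)
    have h5 : 1 / (2 * (q - 1)) * (∑ y, law a y * g (fun _ z => law a z) (law a) y ^ q) ^ q⁻¹ ≤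
        1 / (2 * (q - 1)) * 4 := mul_le_mul_of_nonneg_left hN (by positivity)
    have h6 : 1 / (2 * (q - 1)) * 4 = 2 * (1 / (q - 1)) := by
      field_simp
      norm_num
    linarith

end TwoState

end

end Pool.Agent.H21.SH
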